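import Mathlib
import Pool.Agent.helper35.Chi

open MeasureTheory Set

namespace Pool.Agent.Results.MP_f4ec25_an.MeasurableExtension

/-- The almost periodic polynomial `t ↦ ∑ c_l e^{i l t}` with (finitely supported) coefficients
`c` and exponents `l` in the support of `c`. -/
noncomputable def apPoly (c : ℝ →₀ ℂ) (t : ℝ) : ℂ :=
  ∑ l ∈ c.support, c l * Complex.exp (Complex.I * l * t)

/-- The supremum norm of the almost periodic polynomial over the real line. -/
noncomputable def apNorm (c : ℝ →₀ ℂ) : ℝ := ⨆ t : ℝ, ‖apPoly c t‖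

/-- The linear functional `Φ_f` with chi-function `f`: it sends `∑ c_l e_l` to `∑ c_l f(l)`. -/
noncomputable def functional (f : ℝ → ℂ) (c : ℝ →₀ ℂ) : ℂ :=
  ∑ l ∈ c.support, c l * f l

/-- `M ≥ 0` is a bound of `Φ_f` on the space of polynomials with all exponents in `S`
(only the values of `f` on `S` matter). -/
def IsBound (S : Set ℝ) (f : ℝ → ℂ) (M : ℝ) : Prop :=
  0 ≤ M ∧ ∀ c : ℝ →₀ ℂ, (c.support : Set ℝ) ⊆ S → ‖functional f c‖ ≤ M * apNorm c

/-- `f` (restricted to `S`) is the chi-function of a bounded functional: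
`MemR (Ioo (-A) A) f` says `f ∈ 𝓡_A` and `MemR univ f` says `f ∈ 𝓡_∞`. -/
def MemR (S : Set ℝ) (f : ℝ → ℂ) : Prop := ∃ M : ℝ, IsBound S f M

/-- The operator norm of `Φ_f` on polynomials with exponents in `S`. -/
noncomputable def normR (S : Set ℝ) (f : ℝ → ℂ) : ℝ := sInf {M : ℝ | IsBound S f M}

open Pool.Agent.helper35.Chi

lemma apNorm_eq (c : ℝ →₀ ℂ) : apNorm c = ‖lin c‖ := by
  rw [BoundedContinuousFunction.norm_eq_iSup_norm, apNorm]
  congr 1
  funext t
  congr 1
  rw [apPoly, lin, Finsupp.linearCombination_apply, Finsupp.sum,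
    BoundedContinuousFunction.coe_sum, Finset.sum_apply]
  rfl

lemma functional_eq (f : ℝ → ℂ) (c : ℝ →₀ ℂ) :
    functional f c = Finsupp.linearCombination ℂ f c := by
  rw [Finsupp.linearCombination_apply, Finsupp.sum]
  rfl

lemma isBound_normR {S : Set ℝ} {f : ℝ → ℂ} (h : MemR S f) : IsBound S f (normR S f) := by
  have hne : {M : ℝ | IsBound S f M}.Nonempty := h
  refine ⟨le_csInf hne fun M hM => hM.1, fun c hc => ?_⟩
  by_cases h0 : apNorm c = 0
  · obtain ⟨M, hM⟩ := h
    have := hM.2 c hc
    rw [h0, mul_zero] at this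
    rw [h0, mul_zero]
    exact this
  · have hpos : 0 < apNorm c := by
      refine lt_of_le_of_ne ?_ (Ne.symm h0)
      rw [apNorm_eq]
      exact norm_nonneg _
    rw [← div_le_iff₀ hpos]
    refine le_csInf hne fun M hM => ?_
    rw [div_le_iff₀ hpos]
    exact hM.2 c hc

lemma normR_le {S : Set ℝ} {f : ℝ → ℂ} {M : ℝ} (h : IsBound S f M) : normR S f ≤ M :=
  csInf_le ⟨0, fun _ hM => hM.1⟩ h

/-- **Norm-preserving measurable extension of chi-functions.** Let `0 < A < ∞` and let `f ∈ 𝓡_A`
be Lebesgue measurable on `(-A, A)`. Then `f` has an extension `F ∈ 𝓡_∞` with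
`‖F‖_∞ = ‖f‖_A`, and every such extension is Lebesgue measurable on `ℝ`. -/
theorem result (A : ℝ) (_hA : 0 < A) (f : ℝ → ℂ) (hf : MemR (Ioo (-A) A) f)
    (hm : AEMeasurable f (volume.restrict (Ioo (-A) A))) :
    (∃ F : ℝ → ℂ, MemR univ F ∧ EqOn F f (Ioo (-A) A) ∧
        normR univ F = normR (Ioo (-A) A) f ∧ AEMeasurable F volume) ∧
    (∀ F : ℝ → ℂ, MemR univ F → EqOn F f (Ioo (-A) A) →
        normR univ F = normR (Ioo (-A) A) f → AEMeasurable F volume) := by
  have part2 : ∀ F : ℝ → ℂ, MemR univ F → EqOn F f (Ioo (-A) A) →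
      normR univ F = normR (Ioo (-A) A) f → AEMeasurable F volume := by
    intro F hF hFf hnorm
    have hb := isBound_normR hF
    obtain ⟨Φ, hΦ1, hΦ2⟩ := exists_functional ex F univ (normR univ F) hb.1 (by
      intro c hc
      have := hb.2 c hc
      rw [functional_eq, apNorm_eq] at this
      exact this)
    have hFΦ : F = fun x => Φ (ex x) := by
      funext x
      exact (hΦ2 x (mem_univ x)).symm
    have hfun : ∀ c : ℝ →₀ ℂ, (c.support : Set ℝ) ⊆ Ioo (-A) A → functional f c = Φ (lin c) := by
      intro c hc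
      rw [Phi_lin, functional]
      refine Finset.sum_congr rfl fun l hl => ?_
      rw [hΦ2 l (mem_univ l), hFf (hc hl)]
    have hN : Norming (Ioo (-A) A) Φ := by
      intro ε hε
      by_contra hcon
      push Not at hcon
      have hbound : IsBound (Ioo (-A) A) f (‖Φ‖ - ε) := by
        refine ⟨?_, ?_⟩
        · have := hcon 0 (by simp) (by simp [lin])
          exact (norm_nonneg _).trans this.le
        · intro c hc
          rw [apNorm_eq, hfun c hc]
          by_cases h0 : ‖lin c‖ = 0
          · rw [h0, mul_zero, norm_eq_zero.1 h0, map_zero, norm_zero]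
          · have hpos : 0 < ‖lin c‖ := lt_of_le_of_ne (norm_nonneg _) (Ne.symm h0)
            set a : ℂ := ((‖lin c‖⁻¹ : ℝ) : ℂ) with ha
            have han : ‖a‖ = ‖lin c‖⁻¹ := by
              rw [ha, Complex.norm_real, Real.norm_of_nonneg (by positivity)]
            have hlin : lin (a • c) = a • lin c := by rw [lin, map_smul]; rfl
            have h1 := hcon (a • c) ((Finset.coe_subset.2 Finsupp.support_smul).trans hc) (by
              rw [hlin, norm_smul, han]
              exact (inv_mul_cancel₀ hpos.ne').le)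
            rw [hlin, map_smul, norm_smul, han, inv_mul_lt_iff₀ hpos] at h1
            rw [mul_comm]
            exact h1.le
      have h1 := normR_le hbound
      rw [← hnorm] at h1
      linarith
    rw [hFΦ]
    apply main_functional A Φ hN
    refine hm.congr ?_
    filter_upwards [ae_restrict_mem measurableSet_Ioo] with x hx
    rw [hΦ2 x (mem_univ x)]
    exact (hFf hx).symm
  refine ⟨?_, part2⟩
  have hb := isBound_normR hf
  obtain ⟨Φ, hΦ1, hΦ2, -⟩ := exists_norming_functional (Ioo (-A) A) f (normR (Ioo (-A) A) f) hb.1 (by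
    intro c hc
    have := hb.2 c hc
    rw [functional_eq, apNorm_eq] at this
    exact this)
  set F : ℝ → ℂ := fun x => Φ (ex x) with hF
  have hFb : IsBound univ F ‖Φ‖ := by
    refine ⟨norm_nonneg _, fun c _ => ?_⟩
    have : functional F c = Φ (lin c) := by
      rw [Phi_lin, functional]
    rw [this, apNorm_eq]
    exact Φ.le_opNorm _
  have hFf : EqOn F f (Ioo (-A) A) := fun x hx => hΦ2 x hx
  have hnorm : normR univ F = normR (Ioo (-A) A) f := by
    refine le_antisymm ((normR_le hFb).trans hΦ1) ?_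
    refine normR_le ?_
    have hb2 := isBound_normR (S := univ) (f := F) ⟨_, hFb⟩
    refine ⟨hb2.1, fun c hc => ?_⟩
    have : functional f c = functional F c := by
      rw [functional, functional]
      exact Finset.sum_congr rfl fun l hl => by rw [hFf (hc hl)]
    rw [this]
    exact hb2.2 c (subset_univ _)
  exact ⟨F, ⟨_, hFb⟩, hFf, hnorm, part2 F ⟨_, hFb⟩ hFf hnorm⟩

end Pool.Agent.Results.MP_f4ec25_an.MeasurableExtension
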